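import Mathlib

/-!
# A Bezout relation for a prime polynomial (helper805)
-/

set_option autoImplicit false

namespace Run7.h805

open Polynomial

theorem exists_bezout {R : Type*} [CommRing R] [IsDomain R] [UniqueFactorizationMonoid R]
    {F G : R[X]} (hF : Prime F) (hdeg : F.natDegree ≠ 0) (hFG : ¬ F ∣ G) :
    ∃ (D : R) (U V : R[X]), D ≠ 0 ∧ U * F + V * G = C D := by
  classical
  let K := FractionRing R
  have hprim : F.IsPrimitive := hF.irreducible.isPrimitive hdeg
  have hirr : Irreducible (F.map (algebraMap R K)) :=
    (hprim.irreducible_iff_irreducible_map_fraction_map (K := K)).1 hF.irreducible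
  have hnd : ¬ F.map (algebraMap R K) ∣ G.map (algebraMap R K) := fun h =>
    hFG (hprim.dvd_of_fraction_map_dvd_fraction_map (K := K) h)
  obtain ⟨u, v, huv⟩ := (hirr.coprime_iff_not_dvd).2 hnd
  obtain ⟨b1, hb1, hu⟩ := IsLocalization.integerNormalization_spec (nonZeroDivisors R) u
  obtain ⟨b2, hb2, hv⟩ := IsLocalization.integerNormalization_spec (nonZeroDivisors R) v
  set u0 := IsLocalization.integerNormalization (nonZeroDivisors R) u
  set v0 := IsLocalization.integerNormalization (nonZeroDivisors R) v
  refine ⟨b1 * b2, C b2 * u0, C b1 * v0, mul_ne_zero (nonZeroDivisors.ne_zero hb1)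
    (nonZeroDivisors.ne_zero hb2), ?_⟩
  have hinj := map_injective _ (IsFractionRing.injective R K)
  apply hinj
  have hu' : u0.map (algebraMap R K) = C (algebraMap R K b1) * u := by
    rw [hu, ← algebraMap_smul K b1 u, Polynomial.smul_eq_C_mul]
  have hv' : v0.map (algebraMap R K) = C (algebraMap R K b2) * v := by
    rw [hv, ← algebraMap_smul K b2 v, Polynomial.smul_eq_C_mul]
  rw [Polynomial.map_add, Polynomial.map_mul, Polynomial.map_mul, Polynomial.map_mul,
    Polynomial.map_mul, hu', hv', Polynomial.map_C, Polynomial.map_C, Polynomial.map_C, map_mul,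
    C_mul]
  linear_combination (C (algebraMap R K b1) * C (algebraMap R K b2)) * huv

end Run7.h805
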