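import Mathlib

/-!
# Restriction of a polynomial to the generic line (helper805)
-/

set_option autoImplicit false

namespace Run7.h805

open Polynomial

/-- restriction of a polynomial to the generic line `a + s w` -/
noncomputable def line (R0 : Type*) [CommRing R0] (ι : Type*) :
    MvPolynomial ι R0 →ₐ[R0] (MvPolynomial (ι ⊕ ι) R0)[X] :=
  MvPolynomial.aeval fun i => C (MvPolynomial.X (Sum.inl i)) + X * C (MvPolynomial.X (Sum.inr i))

section

variable {R0 : Type*} [CommRing R0] {ι : Type*}

theorem line_X (i : ι) : line R0 ι (MvPolynomial.X i) =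
    C (MvPolynomial.X (Sum.inl i)) + X * C (MvPolynomial.X (Sum.inr i)) := by
  simp [line]

theorem line_C (r : R0) : line R0 ι (MvPolynomial.C r) = C (MvPolynomial.C r) := by
  simp [line]

/-- a left inverse of `line` -/
noncomputable def unline (R0 : Type*) [CommRing R0] (ι : Type*) :
    (MvPolynomial (ι ⊕ ι) R0)[X] →+* MvPolynomial ι R0 :=
  eval₂RingHom (MvPolynomial.aeval (Sum.elim (fun i => MvPolynomial.X i) (fun _ => 0)) :
    MvPolynomial (ι ⊕ ι) R0 →ₐ[R0] MvPolynomial ι R0).toRingHom 0

theorem unline_line (f : MvPolynomial ι R0) : unline R0 ι (line R0 ι f) = f := by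
  have h : (unline R0 ι).comp (line R0 ι).toRingHom = RingHom.id _ := by
    apply MvPolynomial.ringHom_ext
    · intro r
      change unline R0 ι (line R0 ι (MvPolynomial.C r)) = MvPolynomial.C r
      rw [line_C]
      simp [unline]
    · intro i
      change unline R0 ι (line R0 ι (MvPolynomial.X i)) = MvPolynomial.X i
      rw [line_X]
      simp [unline]
  exact DFunLike.congr_fun h f

theorem line_dvd {f g : MvPolynomial ι R0} (h : line R0 ι f ∣ line R0 ι g) : f ∣ g := by
  have h1 := map_dvd (unline R0 ι) h
  rwa [unline_line, unline_line] at h1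

/-- the shear -/
noncomputable def shearHom (R0 : Type*) [CommRing R0] (ι : Type*) (c : R0) :
    MvPolynomial (Option (ι ⊕ ι)) R0 →ₐ[R0] MvPolynomial (Option (ι ⊕ ι)) R0 :=
  MvPolynomial.aeval fun o => Option.elim o (MvPolynomial.X none)
    (Sum.elim (fun i => MvPolynomial.X (some (Sum.inl i)) +
      MvPolynomial.C c * MvPolynomial.X none * MvPolynomial.X (some (Sum.inr i)))
      (fun i => MvPolynomial.X (some (Sum.inr i))))

theorem shearHom_comp (a b : R0) (h : a + b = 0) :
    (shearHom R0 ι a).comp (shearHom R0 ι b) = AlgHom.id R0 _ := by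
  apply MvPolynomial.algHom_ext
  intro o
  rcases o with _ | (i | i)
  · simp [shearHom]
  · have h1 : (MvPolynomial.C a : MvPolynomial (Option (ι ⊕ ι)) R0) + MvPolynomial.C b = 0 := by
      rw [← map_add, h, map_zero]
    simp only [shearHom, AlgHom.comp_apply, MvPolynomial.aeval_X, Option.elim_some, Sum.elim_inl,
      map_add, map_mul, Option.elim_none, Sum.elim_inr, AlgHom.id_apply, MvPolynomial.aeval_C,
      MvPolynomial.algebraMap_eq]
    linear_combination (MvPolynomial.X none * MvPolynomial.X (some (Sum.inr i))) * h1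
  · simp [shearHom]

noncomputable def shear (R0 : Type*) [CommRing R0] (ι : Type*) :
    MvPolynomial (Option (ι ⊕ ι)) R0 ≃ₐ[R0] MvPolynomial (Option (ι ⊕ ι)) R0 :=
  AlgEquiv.ofAlgHom (shearHom R0 ι 1) (shearHom R0 ι (-1)) (shearHom_comp _ _ (by ring))
    (shearHom_comp _ _ (by ring))

theorem line_eq (f : MvPolynomial ι R0) : line R0 ι f =
    MvPolynomial.optionEquivLeft R0 (ι ⊕ ι) (shear R0 ι
      (MvPolynomial.rename (fun i => some (Sum.inl i)) f)) := by
  have h : line R0 ι = ((MvPolynomial.optionEquivLeft R0 (ι ⊕ ι)).toAlgHom.comp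
      (shear R0 ι).toAlgHom).comp (MvPolynomial.rename (fun i => some (Sum.inl i))) := by
    apply MvPolynomial.algHom_ext
    intro i
    rw [line_X]
    change _ = MvPolynomial.optionEquivLeft R0 (ι ⊕ ι) (shearHom R0 ι 1
      (MvPolynomial.rename (fun i => some (Sum.inl i)) (MvPolynomial.X i)))
    simp [shearHom, MvPolynomial.optionEquivLeft_X_some, MvPolynomial.optionEquivLeft_X_none]
  exact DFunLike.congr_fun h f

theorem rename_prime {σ τ : Type*} (e : σ → τ) (he : Function.Injective e) {f : MvPolynomial σ R0}
    (hf : Prime f) : Prime (MvPolynomial.rename e f) := by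
  have h1 : MvPolynomial.rename e f = MvPolynomial.rename (Subtype.val : Set.range e → τ)
      (MvPolynomial.renameEquiv R0 (Equiv.ofInjective e he) f) := by
    rw [MvPolynomial.renameEquiv_apply, MvPolynomial.rename_rename]
    rfl
  rw [h1, MvPolynomial.prime_rename_iff]
  exact (MulEquiv.prime_iff (MvPolynomial.renameEquiv R0 (Equiv.ofInjective e he))).2 hf

theorem line_prime {f : MvPolynomial ι R0} (hf : Prime f) : Prime (line R0 ι f) := by
  rw [line_eq]
  refine (MulEquiv.prime_iff (MvPolynomial.optionEquivLeft R0 (ι ⊕ ι))).2 ?_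
  refine (MulEquiv.prime_iff (shear R0 ι)).2 ?_
  exact rename_prime _ (fun a b h => Sum.inl_injective (Option.some_injective _ h)) hf

theorem natDegree_line_le (f : MvPolynomial ι R0) : (line R0 ι f).natDegree ≤ f.totalDegree := by
  classical
  rw [line, MvPolynomial.aeval_def, MvPolynomial.eval₂_eq]
  refine natDegree_sum_le_of_forall_le _ _ ?_
  intro d hd
  refine natDegree_mul_le.trans ?_
  have h1 : (algebraMap R0 (MvPolynomial (ι ⊕ ι) R0)[X] (f.coeff d)).natDegree = 0 := by
    rw [Polynomial.algebraMap_apply]
    exact natDegree_C _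
  rw [h1, zero_add]
  refine (natDegree_prod_le _ _).trans ?_
  refine le_trans ?_ (MvPolynomial.le_totalDegree hd)
  rw [Finsupp.sum]
  refine Finset.sum_le_sum fun i _ => ?_
  refine natDegree_pow_le.trans ?_
  refine (Nat.mul_le_mul_left (d i) ?_).trans (by rw [mul_one])
  refine (natDegree_add_le _ _).trans (max_le (by rw [natDegree_C]; omega) ?_)
  refine natDegree_mul_le.trans ?_
  rw [natDegree_C, add_zero]
  exact natDegree_X_le

/-- restriction to the line through the origin -/
noncomputable def ray (v : ι → R0) : MvPolynomial ι R0 →ₐ[R0] R0[X] :=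
  MvPolynomial.aeval (fun i => X * C (v i))

/-- translation -/
noncomputable def trans (x : ι → R0) : MvPolynomial ι R0 →ₐ[R0] MvPolynomial ι R0 :=
  MvPolynomial.aeval fun i => MvPolynomial.X i + MvPolynomial.C (x i)

theorem line_map {k : Type*} [CommRing k] (ρ : MvPolynomial (ι ⊕ ι) R0 →+* k)
    (f : MvPolynomial ι R0) :
    (line R0 ι f).map ρ = ray (fun i => ρ (MvPolynomial.X (Sum.inr i)))
      (trans (fun i => ρ (MvPolynomial.X (Sum.inl i))) (f.map (ρ.comp MvPolynomial.C))) := by
  induction f using MvPolynomial.induction_on with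
  | C r =>
    have h1 : ∀ c : k, ray (fun i => ρ (MvPolynomial.X (Sum.inr i)))
        (trans (fun i => ρ (MvPolynomial.X (Sum.inl i))) (MvPolynomial.C c : MvPolynomial ι k)) =
        C c := by
      intro c
      rw [← MvPolynomial.algebraMap_eq, AlgHom.commutes, AlgHom.commutes]
      rfl
    rw [line_C, Polynomial.map_C, MvPolynomial.map_C, h1]
    rfl
  | add p q hp hq =>
    rw [map_add, Polynomial.map_add, hp, hq, map_add, map_add, map_add]
  | mul_X p i hp =>
    rw [map_mul, Polynomial.map_mul, hp, map_mul, map_mul, map_mul, line_X]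
    congr 1
    rw [MvPolynomial.map_X, trans, MvPolynomial.aeval_X, map_add, ray, MvPolynomial.aeval_X,
      ← MvPolynomial.algebraMap_eq, AlgHom.commutes]
    rw [Polynomial.map_add, Polynomial.map_mul, Polynomial.map_C, Polynomial.map_X,
      Polynomial.map_C]
    exact add_comm _ _

theorem coeff_ray (g : MvPolynomial ι R0) (v : ι → R0) (i : ℕ) :
    (ray v g).coeff i = MvPolynomial.eval v (MvPolynomial.homogeneousComponent i g) := by
  classical
  induction g using MvPolynomial.induction_on' with
  | monomial d a =>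
    have h1 : ray v (MvPolynomial.monomial d a) = C (a * d.prod fun i n => v i ^ n) * X ^ d.degree := by
      rw [ray, MvPolynomial.aeval_monomial, Finsupp.prod, Finsupp.prod]
      simp only [mul_pow, Finset.prod_mul_distrib]
      rw [Finset.prod_pow_eq_pow_sum, Polynomial.algebraMap_apply, C_mul, map_prod]
      simp only [C_pow, Algebra.algebraMap_self, RingHom.id_apply, Finsupp.degree_apply]
      ring
    rw [h1, coeff_C_mul, coeff_X_pow]
    by_cases h : i = d.degree
    · rw [if_pos h, mul_one, (MvPolynomial.homogeneousComponent_eq_self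
        (MvPolynomial.isHomogeneous_monomial a h.symm)), MvPolynomial.eval_monomial]
    · rw [if_neg h, mul_zero, MvPolynomial.homogeneousComponent_of_mem
        (MvPolynomial.isHomogeneous_monomial a rfl), if_neg h, map_zero]
  | add p q hp hq =>
    rw [map_add, coeff_add, hp, hq, map_add, map_add]

theorem natDegree_ray_le (g : MvPolynomial ι R0) (v : ι → R0) :
    (ray v g).natDegree ≤ g.totalDegree := by
  rw [natDegree_le_iff_coeff_eq_zero]
  intro N hN
  rw [coeff_ray, MvPolynomial.homogeneousComponent_eq_zero _ _ hN, map_zero]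

theorem eval_ray (g : MvPolynomial ι R0) (v : ι → R0) (s : R0) :
    (ray v g).eval s = MvPolynomial.eval (fun i => s * v i) g := by
  induction g using MvPolynomial.induction_on with
  | C r => rw [← MvPolynomial.algebraMap_eq, AlgHom.commutes]; simp
  | add p q hp hq => rw [map_add, eval_add, hp, hq, map_add]
  | mul_X p i hp =>
    rw [map_mul, eval_mul, hp, map_mul, MvPolynomial.eval_X, ray, MvPolynomial.aeval_X, eval_mul,
      eval_X, eval_C]

theorem eval_trans (g : MvPolynomial ι R0) (x v : ι → R0) :
    MvPolynomial.eval v (trans x g) = MvPolynomial.eval (fun i => v i + x i) g := by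
  induction g using MvPolynomial.induction_on with
  | C r => rw [← MvPolynomial.algebraMap_eq, AlgHom.commutes]; simp
  | add p q hp hq => rw [map_add, map_add, hp, hq, map_add]
  | mul_X p i hp =>
    rw [map_mul, map_mul, hp, map_mul, MvPolynomial.eval_X, trans, MvPolynomial.aeval_X, map_add,
      MvPolynomial.eval_X, MvPolynomial.eval_C]

theorem trans_trans (x y : ι → R0) (h : ∀ i, x i + y i = 0) :
    (trans x).comp (trans y) = AlgHom.id R0 (MvPolynomial ι R0) := by
  apply MvPolynomial.algHom_ext
  intro i
  rw [AlgHom.comp_apply, trans, trans, MvPolynomial.aeval_X, map_add, MvPolynomial.aeval_X,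
    ← MvPolynomial.algebraMap_eq, AlgHom.commutes, AlgHom.id_apply, MvPolynomial.algebraMap_eq,
    add_assoc, ← map_add, h, map_zero, add_zero]

/-- translation as an automorphism -/
noncomputable def transEquiv (x : ι → R0) : MvPolynomial ι R0 ≃ₐ[R0] MvPolynomial ι R0 :=
  AlgEquiv.ofAlgHom (trans x) (trans fun i => - x i) (trans_trans _ _ fun i => by ring)
    (trans_trans _ _ fun i => by ring)

theorem transEquiv_apply (x : ι → R0) (g : MvPolynomial ι R0) : transEquiv x g = trans x g := rfl

theorem totalDegree_trans_le (x : ι → R0) (g : MvPolynomial ι R0) :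
    (trans x g).totalDegree ≤ g.totalDegree := by
  classical
  rw [trans, MvPolynomial.aeval_def, MvPolynomial.eval₂_eq]
  refine (MvPolynomial.totalDegree_finsetSum_le ?_)
  intro d hd
  refine (MvPolynomial.totalDegree_mul _ _).trans ?_
  rw [MvPolynomial.algebraMap_eq, MvPolynomial.totalDegree_C, zero_add]
  refine (MvPolynomial.totalDegree_finsetProd _ _).trans ?_
  refine le_trans ?_ (MvPolynomial.le_totalDegree hd)
  rw [Finsupp.sum]
  refine Finset.sum_le_sum fun i _ => ?_
  refine (MvPolynomial.totalDegree_pow _ _).trans ?_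
  refine (Nat.mul_le_mul_left (d i) ?_).trans (by rw [mul_one])
  refine (MvPolynomial.totalDegree_add _ _).trans (max_le ?_ ?_)
  · rcases subsingleton_or_nontrivial R0 with h | h
    · have : (MvPolynomial.X i : MvPolynomial ι R0) = 0 := Subsingleton.elim _ _
      rw [this, MvPolynomial.totalDegree_zero]
      omega
    · rw [MvPolynomial.totalDegree_X]
  · rw [MvPolynomial.totalDegree_C]
    omega

theorem totalDegree_trans (x : ι → R0) (g : MvPolynomial ι R0) :
    (trans x g).totalDegree = g.totalDegree := by
  refine le_antisymm (totalDegree_trans_le x g) ?_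
  have h1 := totalDegree_trans_le (fun i => - x i) (trans x g)
  have h2 := DFunLike.congr_fun (trans_trans (fun i => - x i) x fun i => by ring) g
  rw [AlgHom.comp_apply, AlgHom.id_apply] at h2
  rwa [h2] at h1

end

end Run7.h805
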