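import Mathlib

/-!
# Quadratic polynomials with roots near a nonzero square (helper805)
-/

set_option autoImplicit false

namespace Run7.h805

open Polynomial Topology Filter

variable {k : Type*} [NontriviallyNormedField k] [CompleteSpace k] [CharZero k]

theorem sq_near {b : k} (hb : b ≠ 0) : ∀ᶠ y in 𝓝 (b ^ 2), ∃ x : k, x ≠ 0 ∧ x ^ 2 = y := by
  have h1 : HasStrictDerivAt (fun x : k => x ^ 2) ((2 : ℕ) * b ^ (2 - 1)) b := hasStrictDerivAt_pow 2 b
  have h2 : ((2 : ℕ) : k) * b ^ (2 - 1) ≠ 0 := by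
    simp [hb]
  have h3 := h1.map_nhds_eq h2
  have h4 : {x : k | x ≠ 0} ∈ 𝓝 b := isOpen_ne.mem_nhds hb
  have h5 := image_mem_map (m := fun x : k => x ^ 2) h4
  rw [h3] at h5
  filter_upwards [h5] with y hy
  obtain ⟨x, hx, hxy⟩ := hy
  exact ⟨x, hx, hxy⟩

theorem exists_disc (l : k) (q c : k[X]) (hl : l ≠ 0) (hc : c ≠ 0)
    (h : q.eval 0 ≠ 0 ∨ c.eval 0 ≠ 0) :
    ∃ ε δ : k, ε ≠ 0 ∧ c.eval ε ≠ 0 ∧ δ ≠ 0 ∧ δ ^ 2 = (q.eval ε) ^ 2 - 4 * (l * ε) * c.eval ε := by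
  by_cases hq : q.eval 0 = 0
  · have hc0 : c.eval 0 ≠ 0 := h.resolve_left (not_not.2 hq)
    obtain ⟨q1, hq1⟩ : X ∣ q := by
      rw [X_dvd_iff, coeff_zero_eq_eval_zero]
      exact hq
    set c0 := c.eval 0 with hc0d
    let e : k → k := fun η => -(η ^ 2 * l * c0)
    have he : Continuous e := by fun_prop
    have he0 : e 0 = 0 := by simp [e]
    let D : k → k := fun η => η ^ 2 * (l * c0 * q1.eval (e η)) ^ 2 + 4 * l ^ 2 * c0 * c.eval (e η)
    have hD : Continuous D := by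
      have h1 : Continuous fun η => q1.eval (e η) := q1.continuous.comp he
      have h2 : Continuous fun η => c.eval (e η) := c.continuous.comp he
      fun_prop
    have hD0 : D 0 = (2 * l * c0) ^ 2 := by
      simp only [D, he0, ← hc0d]
      ring
    have h2 : (2 * l * c0) ≠ 0 := mul_ne_zero (mul_ne_zero two_ne_zero hl) hc0
    have h3 : ∀ᶠ η in 𝓝 (0 : k), ∃ x : k, x ≠ 0 ∧ x ^ 2 = D η := by
      have h4 := sq_near h2
      rw [← hD0] at h4
      exact hD.continuousAt.eventually h4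
    have h5 : ∀ᶠ η in 𝓝 (0 : k), c.eval (e η) ≠ 0 := by
      have h6 : Continuous fun η => c.eval (e η) := c.continuous.comp he
      refine h6.continuousAt.eventually_ne ?_
      rw [he0]
      exact hc0
    have h7 : ∀ᶠ η in 𝓝[≠] (0 : k), ((∃ x : k, x ≠ 0 ∧ x ^ 2 = D η) ∧ c.eval (e η) ≠ 0) ∧ η ≠ 0 :=
      ((h3.and h5).filter_mono nhdsWithin_le_nhds).and eventually_mem_nhdsWithin
    obtain ⟨η, ⟨⟨x, hx, hxD⟩, hce⟩, hη⟩ := h7.exists
    refine ⟨e η, η * x, ?_, hce, mul_ne_zero hη hx, ?_⟩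
    · simp only [e]
      exact neg_ne_zero.2 (mul_ne_zero (mul_ne_zero (pow_ne_zero 2 hη) hl) hc0)
    · rw [mul_pow, hxD, hq1, eval_mul, eval_X]
      simp only [D, e]
      ring
  · have h1 : Continuous fun ε : k => (q.eval ε) ^ 2 - 4 * (l * ε) * c.eval ε := by
      have h2 : Continuous fun ε => q.eval ε := q.continuous
      have h3 : Continuous fun ε => c.eval ε := c.continuous
      fun_prop
    have h3 : ∀ᶠ ε in 𝓝 (0 : k), ∃ x : k, x ≠ 0 ∧ x ^ 2 = (q.eval ε) ^ 2 - 4 * (l * ε) * c.eval ε := by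
      have h4 := sq_near hq
      have h5 : (q.eval 0) ^ 2 - 4 * (l * 0) * c.eval 0 = (q.eval 0) ^ 2 := by ring
      rw [← h5] at h4
      exact h1.continuousAt.eventually h4
    have h5 : ∀ᶠ ε in 𝓝[≠] (0 : k), c.eval ε ≠ 0 := by
      classical
      have h6 : {ε : k | c.eval ε = 0}.Finite := by
        refine (c.roots.toFinset.finite_toSet).subset ?_
        intro x hx
        simp only [Set.mem_setOf_eq] at hx
        simp [hc, hx]
      have h8 : ∀ᶠ ε in 𝓝[≠] (0 : k), ε ∉ {ε : k | c.eval ε = 0} \ {0} := by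
        have h9 : IsOpen ({ε : k | c.eval ε = 0} \ {0})ᶜ :=
          ((h6.subset Set.sdiff_subset).isClosed).isOpen_compl
        have h10 : ({ε : k | c.eval ε = 0} \ {0})ᶜ ∈ 𝓝 (0 : k) := h9.mem_nhds (by simp)
        exact mem_nhdsWithin_of_mem_nhds h10
      filter_upwards [h8, eventually_mem_nhdsWithin] with ε hε1 hε2 hε3
      exact hε1 ⟨hε3, hε2⟩
    obtain ⟨ε, ⟨⟨x, hx, hxD⟩, hε⟩, hce⟩ := (((h3.filter_mono nhdsWithin_le_nhds).and
      (eventually_mem_nhdsWithin (a := (0 : k)) (s := {0}ᶜ))).and h5).exists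
    exact ⟨ε, x, hε, hce, hx, hxD⟩

end Run7.h805
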