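import Mathlib
import Pool.Agent.Run7.h805.RP
import Pool.Agent.Run7.h805.Cub.Sq
import Pool.Agent.Run7.h805.Cub.Line

/-!
# Local lines with three rational points (helper805)
-/

set_option autoImplicit false

namespace Run7.h805

open Polynomial Topology Filter

section roots

variable {k : Type*} [Field k]

theorem roots_eq_three {p : k[X]} (hp : p ≠ 0) (hd : p.natDegree ≤ 3) {a b c : k} (hab : a ≠ b)
    (hac : a ≠ c) (hbc : b ≠ c) (ha : p.eval a = 0) (hb : p.eval b = 0) (hc : p.eval c = 0) :
    p.roots = {a, b, c} := by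
  classical
  have hn : ({a, b, c} : Multiset k).Nodup := by
    simp [hab, hac, hbc]
  have hle : ({a, b, c} : Multiset k) ≤ p.roots := by
    rw [Multiset.le_iff_subset hn]
    intro x hx
    rw [mem_roots hp]
    simp only [Multiset.insert_eq_cons, Multiset.mem_cons, Multiset.mem_singleton] at hx
    rcases hx with rfl | rfl | rfl
    · exact ha
    · exact hb
    · exact hc
  refine (Multiset.eq_of_le_of_card_le hle ?_).symm
  refine (card_roots' p).trans (hd.trans ?_)
  simp

theorem splits_of_three {p : k[X]} (hp : p ≠ 0) (hd : p.natDegree ≤ 3) {a b c : k} (hab : a ≠ b)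
    (hac : a ≠ c) (hbc : b ≠ c) (ha : p.eval a = 0) (hb : p.eval b = 0) (hc : p.eval c = 0) :
    p.Splits := by
  rw [splits_iff_card_roots, roots_eq_three hp hd hab hac hbc ha hb hc]
  have h1 := roots_eq_three hp hd hab hac hbc ha hb hc
  have h2 := card_roots' p
  rw [h1] at h2
  simp only [Multiset.insert_eq_cons, Multiset.card_cons, Multiset.card_singleton] at h2 ⊢
  omega

theorem derivative_ne_zero_of_three {p : k[X]} (hp : p ≠ 0) (hd : p.natDegree ≤ 3) {a b c : k}
    (hab : a ≠ b) (hac : a ≠ c) (hbc : b ≠ c) (ha : p.eval a = 0) (hb : p.eval b = 0)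
    (hc : p.eval c = 0) : p.derivative.eval a ≠ 0 := by
  classical
  intro h
  have h1 : 1 < p.rootMultiplicity a := (one_lt_rootMultiplicity_iff_isRoot hp).2 ⟨ha, h⟩
  rw [← count_roots, roots_eq_three hp hd hab hac hbc ha hb hc] at h1
  simp [hab, hac] at h1

end roots

theorem linear_comp {k : Type*} [Field k] {ι : Type*} (g : MvPolynomial ι k) (v z : ι → k) (ε : k) :
    MvPolynomial.eval (fun i => v i + ε * z i) (MvPolynomial.homogeneousComponent 1 g) =
      MvPolynomial.eval v (MvPolynomial.homogeneousComponent 1 g) +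
        ε * MvPolynomial.eval z (MvPolynomial.homogeneousComponent 1 g) := by
  have h1 : MvPolynomial.homogeneousComponent 1 g ∈
      Submodule.span k (Set.range (MvPolynomial.X : ι → MvPolynomial ι k)) := by
    rw [← MvPolynomial.homogeneousSubmodule_one_eq_span_X]
    exact MvPolynomial.homogeneousComponent_mem 1 g
  generalize MvPolynomial.homogeneousComponent 1 g = g' at h1 ⊢
  induction h1 using Submodule.span_induction with
  | mem p hp =>
    obtain ⟨i, rfl⟩ := hp
    simp
  | zero => simp
  | add p q _ _ hp hq => rw [map_add, map_add, map_add, hp, hq]; ring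
  | smul a p _ hp =>
    rw [MvPolynomial.smul_eval, MvPolynomial.smul_eval, MvPolynomial.smul_eval, hp]
    ring

/-- restriction of a polynomial to a line -/
noncomputable def path {k : Type*} [Field k] {ι : Type*} (v z : ι → k) :
    MvPolynomial ι k →ₐ[k] k[X] :=
  MvPolynomial.aeval fun i => C (v i) + X * C (z i)

theorem eval_path {k : Type*} [Field k] {ι : Type*} (v z : ι → k) (g : MvPolynomial ι k) (ε : k) :
    (path v z g).eval ε = MvPolynomial.eval (fun i => v i + ε * z i) g := by
  induction g using MvPolynomial.induction_on with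
  | C r => rw [← MvPolynomial.algebraMap_eq, AlgHom.commutes]; simp
  | add p q hp hq => rw [map_add, eval_add, hp, hq, map_add]
  | mul_X p i hp =>
    rw [map_mul, eval_mul, hp, map_mul, MvPolynomial.eval_X, path, MvPolynomial.aeval_X, eval_add,
      eval_mul, eval_X, eval_C, eval_C]

theorem exists_line {k : Type*} [NontriviallyNormedField k] [CompleteSpace k] [CharZero k]
    {ι : Type*} (g : MvPolynomial ι k) (hd : g.totalDegree ≤ 3) (v₀ z₁ : ι → k)
    (h0 : ∀ v, MvPolynomial.eval v (MvPolynomial.homogeneousComponent 0 g) = 0)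
    (h1 : MvPolynomial.eval v₀ (MvPolynomial.homogeneousComponent 1 g) = 0)
    (hz1 : MvPolynomial.eval z₁ (MvPolynomial.homogeneousComponent 1 g) ≠ 0)
    (hz3 : MvPolynomial.eval z₁ (MvPolynomial.homogeneousComponent 3 g) ≠ 0)
    (h23 : MvPolynomial.eval v₀ (MvPolynomial.homogeneousComponent 2 g) ≠ 0 ∨
      MvPolynomial.eval v₀ (MvPolynomial.homogeneousComponent 3 g) ≠ 0) :
    ∃ v : ι → k, MvPolynomial.eval v (MvPolynomial.homogeneousComponent 3 g) ≠ 0 ∧
      ∃ a b : k, (0 : k) ≠ a ∧ (0 : k) ≠ b ∧ a ≠ b ∧ (ray v g).eval 0 = 0 ∧ (ray v g).eval a = 0 ∧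
        (ray v g).eval b = 0 := by
  let z : ι → k := fun i => z₁ i - v₀ i
  have hz : (fun i => v₀ i + 1 * z i) = z₁ := by
    funext i
    simp [z]
  have hl := linear_comp g v₀ z 1
  rw [hz, h1, zero_add, one_mul] at hl
  have hl0 : MvPolynomial.eval z (MvPolynomial.homogeneousComponent 1 g) ≠ 0 := by
    rw [← hl]
    exact hz1
  have hv0 : (fun i => v₀ i + 0 * z i) = v₀ := by
    funext i
    simp
  obtain ⟨ε, δ, hε, hcε, hδ, hdisc⟩ := exists_disc
    (MvPolynomial.eval z (MvPolynomial.homogeneousComponent 1 g))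
    (path v₀ z (MvPolynomial.homogeneousComponent 2 g))
    (path v₀ z (MvPolynomial.homogeneousComponent 3 g)) hl0
    (by
      intro h
      apply hz3
      rw [← hz, ← eval_path, h, eval_zero])
    (by
      rw [eval_path, eval_path, hv0]
      exact h23)
  rw [eval_path] at hcε hdisc
  rw [eval_path] at hdisc
  set v : ι → k := fun i => v₀ i + ε * z i with hv
  have hlv := linear_comp g v₀ z ε
  rw [h1, zero_add, ← hv] at hlv
  set q := MvPolynomial.eval v (MvPolynomial.homogeneousComponent 2 g) with hq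
  set c := MvPolynomial.eval v (MvPolynomial.homogeneousComponent 3 g) with hc
  set l := MvPolynomial.eval z (MvPolynomial.homogeneousComponent 1 g) with hldef
  have hev : ∀ s : k, (ray v g).eval s = s * (l * ε + s * q + s ^ 2 * c) := by
    intro s
    have h2 : (ray v g).natDegree < 4 := lt_of_le_of_lt ((natDegree_ray_le g v).trans hd) (by norm_num)
    rw [eval_eq_sum_range' h2, Finset.sum_range_succ, Finset.sum_range_succ, Finset.sum_range_succ,
      Finset.sum_range_one, coeff_ray, coeff_ray, coeff_ray, coeff_ray, h0, hlv]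
    ring
  have h2c : (2 * c) ≠ 0 := mul_ne_zero two_ne_zero hcε
  have hprod : ((-q + δ) / (2 * c)) * ((-q - δ) / (2 * c)) * c = l * ε := by
    field_simp
    linear_combination (-1 : k) * hdisc
  have hlε : l * ε ≠ 0 := mul_ne_zero hl0 hε
  refine ⟨v, hcε, (-q + δ) / (2 * c), (-q - δ) / (2 * c), ?_, ?_, ?_, ?_, ?_, ?_⟩
  · intro h
    rw [← h, zero_mul, zero_mul] at hprod
    exact hlε hprod.symm
  · intro h
    rw [← h, mul_zero, zero_mul] at hprod
    exact hlε hprod.symm
  · intro h
    rw [div_left_inj' h2c] at h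
    apply hδ
    have h3 : 2 * δ = 0 := by linear_combination h
    exact (mul_eq_zero.1 h3).resolve_left two_ne_zero
  · rw [hev, zero_mul]
  · rw [hev]
    have h4 : l * ε + (-q + δ) / (2 * c) * q + ((-q + δ) / (2 * c)) ^ 2 * c = 0 := by
      field_simp
      linear_combination hdisc
    rw [h4, mul_zero]
  · rw [hev]
    have h4 : l * ε + (-q - δ) / (2 * c) * q + ((-q - δ) / (2 * c)) ^ 2 * c = 0 := by
      field_simp
      linear_combination hdisc
    rw [h4, mul_zero]

/-- three distinct roots persist under small changes of the parameters -/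
theorem three_roots_persist {k : Type*} [NontriviallyNormedField k] [CompleteSpace k] {σ : Type*}
    [Fintype σ] (P : (MvPolynomial σ k)[X]) (hd : P.natDegree ≤ 3) (y₀ : σ → k)
    (h3 : MvPolynomial.eval y₀ (P.coeff 3) ≠ 0) {a b c : k} (hab : a ≠ b) (hac : a ≠ c)
    (hbc : b ≠ c) (ha : (P.map (MvPolynomial.eval y₀)).eval a = 0)
    (hb : (P.map (MvPolynomial.eval y₀)).eval b = 0)
    (hc : (P.map (MvPolynomial.eval y₀)).eval c = 0) :
    ∀ᶠ y in 𝓝 y₀, (P.map (MvPolynomial.eval y)).Splits := by
  have hP0 : P.map (MvPolynomial.eval y₀) ≠ 0 := by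
    intro h
    apply h3
    rw [← coeff_map, h, coeff_zero]
  have hdy : ∀ y : σ → k, (P.map (MvPolynomial.eval y)).natDegree ≤ 3 := fun y =>
    natDegree_map_le.trans hd
  set ρ := min (dist a b) (min (dist a c) (dist b c)) / 2 with hρ
  have hρ0 : 0 < ρ := by
    have h1 := dist_pos.2 hab
    have h2 := dist_pos.2 hac
    have h4 := dist_pos.2 hbc
    have := lt_min h1 (lt_min h2 h4)
    linarith
  have hρ1 : 2 * ρ ≤ dist a b := by
    have := min_le_left (dist a b) (min (dist a c) (dist b c))
    linarith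
  have hρ2 : 2 * ρ ≤ dist a c := by
    have := (min_le_right (dist a b) (min (dist a c) (dist b c))).trans (min_le_left _ _)
    linarith
  have hρ3 : 2 * ρ ≤ dist b c := by
    have := (min_le_right (dist a b) (min (dist a c) (dist b c))).trans (min_le_right _ _)
    linarith
  have e1 := root_persist P y₀ a ha (derivative_ne_zero_of_three hP0 (hdy _) hab hac hbc ha hb hc)
    (Metric.ball a ρ) (Metric.ball_mem_nhds a hρ0)
  have e2 := root_persist P y₀ b hb (derivative_ne_zero_of_three hP0 (hdy _) hab.symm hbc hac hb ha hc)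
    (Metric.ball b ρ) (Metric.ball_mem_nhds b hρ0)
  have e3 := root_persist P y₀ c hc (derivative_ne_zero_of_three hP0 (hdy _) hac.symm hbc.symm hab
    hc ha hb) (Metric.ball c ρ) (Metric.ball_mem_nhds c hρ0)
  have e4 : ∀ᶠ y in 𝓝 y₀, MvPolynomial.eval y (P.coeff 3) ≠ 0 :=
    (MvPolynomial.continuous_eval _).continuousAt.eventually_ne h3
  filter_upwards [e1, e2, e3, e4] with y ⟨a', ha', ha0⟩ ⟨b', hb', hb0⟩ ⟨c', hc', hc0⟩ h3'
  rw [Metric.mem_ball] at ha' hb' hc'
  refine splits_of_three (a := a') (b := b') (c := c') ?_ (hdy y) ?_ ?_ ?_ ha0 hb0 hc0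
  · intro h
    apply h3'
    rw [← coeff_map, h, coeff_zero]
  · rintro rfl
    have := dist_triangle_left a b a'
    linarith
  · rintro rfl
    have := dist_triangle_left a c a'
    linarith
  · rintro rfl
    have := dist_triangle_left b c b'
    linarith

end Run7.h805
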