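import Mathlib
import Pool.Agent.Run7.h805.Cub.Loc

/-!
# The generic point of a cubic hypersurface (helper805)
-/

set_option autoImplicit false

namespace Run7.h805

open Polynomial

section

variable {E : Type*} [Field E] {n : ℕ}

/-- a polynomial which vanishes on the hyperplane `L = 0` is divisible by the linear form `L` -/
theorem dvd_of_vanish [Infinite E] (L p : MvPolynomial (Fin n) E) (hL : L ∈
      Submodule.span E (Set.range (MvPolynomial.X : Fin n → MvPolynomial (Fin n) E)))
    (hL0 : L ≠ 0) (h : ∀ v : Fin n → E, MvPolynomial.eval v L = 0 → MvPolynomial.eval v p = 0) :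
    L ∣ p := by
  classical
  obtain ⟨c, hc⟩ := (Submodule.mem_span_range_iff_exists_fun E).1 hL
  have hev : ∀ v : Fin n → E, MvPolynomial.eval v L = ∑ i, c i * v i := by
    intro v
    rw [← hc, map_sum]
    refine Finset.sum_congr rfl fun i _ => ?_
    rw [MvPolynomial.smul_eval, MvPolynomial.eval_X]
  obtain ⟨j, hj⟩ : ∃ j, c j ≠ 0 := by
    by_contra hcon
    push Not at hcon
    apply hL0
    rw [← hc]
    exact Finset.sum_eq_zero fun i _ => by rw [hcon, zero_smul]
  let e : Fin n → E := fun i => if i = j then (c j)⁻¹ else 0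
  let κ : MvPolynomial (Fin n) E →ₐ[E] MvPolynomial (Fin n) E :=
    MvPolynomial.aeval fun i => MvPolynomial.X i - MvPolynomial.C (e i) * L
  have hκev : ∀ (v : Fin n → E) (q : MvPolynomial (Fin n) E), MvPolynomial.eval v (κ q) =
      MvPolynomial.eval (fun i => v i - e i * MvPolynomial.eval v L) q := by
    intro v q
    induction q using MvPolynomial.induction_on with
    | C r => rw [← MvPolynomial.algebraMap_eq, AlgHom.commutes]; simp
    | add p q hp hq => rw [map_add, map_add, hp, hq, map_add]
    | mul_X p i hp =>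
      rw [map_mul, map_mul, hp, map_mul, MvPolynomial.eval_X]
      simp [κ]
  have hκ0 : κ p = 0 := by
    apply MvPolynomial.funext
    intro v
    rw [hκev, map_zero]
    apply h
    rw [hev, hev]
    have h1 : ∀ i, c i * (v i - e i * ∑ i, c i * v i) =
        c i * v i - (c i * e i) * ∑ i, c i * v i := fun i => by ring
    rw [Finset.sum_congr rfl fun i _ => h1 i, Finset.sum_sub_distrib, ← Finset.sum_mul]
    have h2 : ∑ i, c i * e i = 1 := by
      rw [Finset.sum_eq_single j]
      · simp [e, hj]
      · intro b _ hb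
        simp [e, hb]
      · simp
    rw [h2, one_mul, sub_self]
  have hmk : (Ideal.Quotient.mkₐ E (Ideal.span {L})).comp κ =
      Ideal.Quotient.mkₐ E (Ideal.span {L}) := by
    apply MvPolynomial.algHom_ext
    intro i
    rw [AlgHom.comp_apply]
    change Ideal.Quotient.mk _ (κ (MvPolynomial.X i)) = Ideal.Quotient.mk _ (MvPolynomial.X i)
    rw [Ideal.Quotient.eq]
    simp only [κ, MvPolynomial.aeval_X, sub_sub_cancel_left]
    exact neg_mem (Ideal.mul_mem_left _ _ (Ideal.mem_span_singleton_self L))
  have h3 := DFunLike.congr_fun hmk p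
  rw [AlgHom.comp_apply, hκ0, map_zero] at h3
  exact Ideal.mem_span_singleton.1 (Ideal.Quotient.eq_zero_iff_mem.1 h3.symm)

theorem hc3_ne_zero {R : Type*} [CommRing R] (g : MvPolynomial (Fin n) R) (hdeg : g.totalDegree = 3) :
    ∃ d ∈ g.support, d.degree = 3 := by
  classical
  have hne : g.support.Nonempty := by
    rw [Finset.nonempty_iff_ne_empty, Ne, MvPolynomial.support_eq_empty]
    rintro rfl
    simp at hdeg
  obtain ⟨d, hd, hd'⟩ := Finset.exists_mem_eq_sup g.support hne (fun s => s.sum fun _ e => e)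
  refine ⟨d, hd, ?_⟩
  have h1 : g.totalDegree = d.sum fun _ e => e := hd'
  rw [← hdeg, h1]
  rfl

theorem gen_exists [CharZero E] (g : MvPolynomial (Fin n) E) (hirr : Irreducible g)
    (hdeg : g.totalDegree = 3) (h0 : MvPolynomial.eval 0 g = 0)
    (h1 : MvPolynomial.homogeneousComponent 1 g ≠ 0) :
    ∃ v₀ z₁ : Fin n → E, MvPolynomial.eval v₀ (MvPolynomial.homogeneousComponent 1 g) = 0 ∧
      MvPolynomial.eval z₁ (MvPolynomial.homogeneousComponent 1 g) ≠ 0 ∧
      MvPolynomial.eval z₁ (MvPolynomial.homogeneousComponent 3 g) ≠ 0 ∧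
      (MvPolynomial.eval v₀ (MvPolynomial.homogeneousComponent 2 g) ≠ 0 ∨
        MvPolynomial.eval v₀ (MvPolynomial.homogeneousComponent 3 g) ≠ 0) := by
  classical
  have h3 : MvPolynomial.homogeneousComponent 3 g ≠ 0 := by
    obtain ⟨d, hd, hd3⟩ := hc3_ne_zero g hdeg
    intro h
    have h2 := MvPolynomial.coeff_homogeneousComponent (n := 3) (φ := g) d
    rw [if_pos hd3, h, MvPolynomial.coeff_zero] at h2
    exact (MvPolynomial.mem_support_iff.1 hd) h2.symm
  have hspan : MvPolynomial.homogeneousComponent 1 g ∈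
      Submodule.span E (Set.range (MvPolynomial.X : Fin n → MvPolynomial (Fin n) E)) := by
    rw [← MvPolynomial.homogeneousSubmodule_one_eq_span_X]
    exact MvPolynomial.homogeneousComponent_mem 1 g
  obtain ⟨z₁, hz⟩ : ∃ z₁ : Fin n → E, MvPolynomial.eval z₁
      (MvPolynomial.homogeneousComponent 1 g * MvPolynomial.homogeneousComponent 3 g) ≠ 0 := by
    by_contra hcon
    push Not at hcon
    exact mul_ne_zero h1 h3 (MvPolynomial.funext fun v => by rw [hcon, map_zero])
  rw [map_mul] at hz
  suffices hv : ∃ v₀ : Fin n → E, MvPolynomial.eval v₀ (MvPolynomial.homogeneousComponent 1 g) = 0 ∧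
      MvPolynomial.eval v₀ g ≠ 0 by
    obtain ⟨v₀, hv1, hv2⟩ := hv
    refine ⟨v₀, z₁, hv1, left_ne_zero_of_mul hz, right_ne_zero_of_mul hz, ?_⟩
    by_contra hcon
    push Not at hcon
    apply hv2
    rw [← MvPolynomial.sum_homogeneousComponent g, hdeg, map_sum, Finset.sum_range_succ,
      Finset.sum_range_succ, Finset.sum_range_succ, Finset.sum_range_one, hv1, hcon.1, hcon.2,
      MvPolynomial.homogeneousComponent_zero, MvPolynomial.eval_C]
    have h4 : MvPolynomial.eval 0 g = MvPolynomial.coeff 0 g := by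
      have h5 := DFunLike.congr_fun (MvPolynomial.eval_zero' (R := E) (σ := Fin n)) g
      rw [MvPolynomial.constantCoeff_eq] at h5
      exact h5
    rw [← h4, h0]
    ring
  by_contra hcon
  push Not at hcon
  obtain ⟨u, hu⟩ := dvd_of_vanish _ g hspan h1 hcon
  rcases hirr.isUnit_or_isUnit hu with hL | hu'
  · have h4 := hL.map (MvPolynomial.eval (0 : Fin n → E))
    rw [isUnit_iff_ne_zero] at h4
    apply h4
    have h5 := linear_comp g 0 0 0
    obtain ⟨c, hc⟩ := (Submodule.mem_span_range_iff_exists_fun E).1 hspan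
    rw [← hc, map_sum]
    refine Finset.sum_eq_zero fun i _ => ?_
    rw [MvPolynomial.smul_eval, MvPolynomial.eval_X, Pi.zero_apply, mul_zero]
  · obtain ⟨r, hr, rfl⟩ := (MvPolynomial.isUnit_iff_eq_C_of_isReduced).1 hu'
    have h4 := MvPolynomial.totalDegree_mul (MvPolynomial.homogeneousComponent 1 g)
      (MvPolynomial.C r)
    rw [← hu, hdeg, MvPolynomial.totalDegree_C, add_zero] at h4
    have h5 := (MvPolynomial.homogeneousComponent_isHomogeneous 1 g).totalDegree_le
    omega

/-- the first order term of the expansion at `ξ` is given by the partial derivatives -/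
theorem eval_hc_one (p : MvPolynomial (Fin n) E) (ξ : Fin n → E) (j : Fin n) :
    (ray (Pi.single j (1 : E)) (trans ξ p)).coeff 1 =
      MvPolynomial.eval ξ (MvPolynomial.pderiv j p) := by
  classical
  have h0 : ∀ q : MvPolynomial (Fin n) E, (ray (Pi.single j (1 : E)) (trans ξ q)).coeff 0 =
      MvPolynomial.eval ξ q := by
    intro q
    rw [coeff_zero_eq_eval_zero, eval_ray, eval_trans]
    congr 2
    funext i
    simp
  induction p using MvPolynomial.induction_on with
  | C r =>
    rw [← MvPolynomial.algebraMap_eq, AlgHom.commutes, AlgHom.commutes]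
    simp
  | add p q hp hq => rw [map_add, map_add, coeff_add, hp, hq, map_add, map_add]
  | mul_X p i hp =>
    have h1 : ray (Pi.single j (1 : E)) (trans ξ (MvPolynomial.X i)) =
        X * C ((Pi.single j (1 : E) : Fin n → E) i) + C (ξ i) := by
      rw [trans, MvPolynomial.aeval_X, map_add, ray, MvPolynomial.aeval_X,
        ← MvPolynomial.algebraMap_eq, AlgHom.commutes]
      rfl
    rw [map_mul, map_mul, h1, mul_add, coeff_add, coeff_mul_C, hp, ← mul_assoc, coeff_mul_C,
      coeff_mul_X, h0, MvPolynomial.pderiv_mul, map_add, map_mul, map_mul, MvPolynomial.eval_X,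
      MvPolynomial.pderiv_X]
    have h2 : MvPolynomial.eval ξ ((Pi.single j 1 : Fin n → MvPolynomial (Fin n) E) i) =
        (Pi.single j (1 : E) : Fin n → E) i := by
      by_cases hij : i = j
      · subst hij
        simp
      · simp [hij]
    rw [h2]
    ring

theorem hc_one_ne_zero {R0 : Type*} [CommRing R0] [IsDomain R0] [CharZero R0] (τ : R0 →+* E)
    (f : MvPolynomial (Fin n) R0) (hdeg : f.totalDegree = 3) (ξ : Fin n → E)
    (hξ : ∀ h : MvPolynomial (Fin n) R0, MvPolynomial.eval ξ (h.map τ) = 0 → f ∣ h) :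
    MvPolynomial.homogeneousComponent 1 (trans ξ (f.map τ)) ≠ 0 := by
  classical
  intro h
  obtain ⟨d, hd, hd3⟩ := hc3_ne_zero f hdeg
  have hf0 : f ≠ 0 := by
    rintro rfl
    simp at hdeg
  obtain ⟨j, hj⟩ : ∃ j, d j ≠ 0 := by
    by_contra hcon
    push Not at hcon
    have : d = 0 := Finsupp.ext hcon
    rw [this] at hd3
    simp at hd3
  have h1 : MvPolynomial.eval ξ ((MvPolynomial.pderiv j f).map τ) = 0 := by
    rw [← MvPolynomial.pderiv_map, ← eval_hc_one, coeff_ray, h, map_zero]
  have hp0 : MvPolynomial.pderiv j f ≠ 0 := by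
    intro h2
    have h3 := MvPolynomial.coeff_pderiv (i := j) f (d - Finsupp.single j 1)
    have h4 : d - Finsupp.single j 1 + Finsupp.single j 1 = d :=
      tsub_add_cancel_of_le (by
        rw [Finsupp.single_le_iff]
        omega)
    rw [h4, h2, MvPolynomial.coeff_zero] at h3
    have h5 : (((d - Finsupp.single j 1 : Fin n →₀ ℕ) j : R0) + 1) ≠ 0 :=
      Nat.cast_add_one_ne_zero _
    exact mul_ne_zero (MvPolynomial.mem_support_iff.1 hd) h5 h3.symm
  obtain ⟨q, hq⟩ := hξ _ h1
  have hq0 : q ≠ 0 := by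
    rintro rfl
    rw [mul_zero] at hq
    exact hp0 hq
  have h6 := MvPolynomial.totalDegree_mul_of_isDomain hf0 hq0
  rw [← hq] at h6
  have hne : (MvPolynomial.pderiv j f).support.Nonempty := by
    rw [Finset.nonempty_iff_ne_empty, Ne, MvPolynomial.support_eq_empty]
    exact hp0
  obtain ⟨m, hm, hm'⟩ := Finset.exists_mem_eq_sup (MvPolynomial.pderiv j f).support hne
    (fun s => s.sum fun _ e => e)
  have h7 : (MvPolynomial.pderiv j f).totalDegree = m.degree := hm'
  have h8 : m + Finsupp.single j 1 ∈ f.support := by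
    rw [MvPolynomial.mem_support_iff] at hm ⊢
    rw [MvPolynomial.coeff_pderiv] at hm
    exact left_ne_zero_of_mul hm
  have h9 := MvPolynomial.le_totalDegree h8
  have h10 : ((m + Finsupp.single j 1).sum fun _ e => e) = m.degree + 1 := by
    change (m + Finsupp.single j 1).degree = _
    rw [map_add, Finsupp.degree_single]
  rw [h10] at h9
  omega

end

end Run7.h805
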