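import Mathlib
import Pool.Agent.Run7.h805.LD
import Pool.Agent.Run7.h805.Frac
import Pool.Agent.Run7.h805.Cub.Gen

/-!
# Evaluation, and local lines on a cubic hypersurface (helper805)
-/

set_option autoImplicit false

namespace Run7.h805

open Polynomial Topology Filter

section ev

variable {m n : ℕ}

/-- evaluation at a point `(a, w, t)` -/
noncomputable def ev {B : Type*} [CommRing B] [Algebra ℚ B] (y : (Fin n ⊕ Fin n) ⊕ Fin m → B) :
    MvPolynomial (Fin n ⊕ Fin n) (MvPolynomial (Fin m) ℚ) →+* B :=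
  MvPolynomial.eval₂Hom (MvPolynomial.aeval (fun j => y (Sum.inr j)) :
    MvPolynomial (Fin m) ℚ →ₐ[ℚ] B).toRingHom (fun i => y (Sum.inl i))

theorem ev_X {B : Type*} [CommRing B] [Algebra ℚ B] (y : (Fin n ⊕ Fin n) ⊕ Fin m → B)
    (i : Fin n ⊕ Fin n) : ev y (MvPolynomial.X i) = y (Sum.inl i) := by
  simp [ev]

theorem ev_C {B : Type*} [CommRing B] [Algebra ℚ B] (y : (Fin n ⊕ Fin n) ⊕ Fin m → B)
    (r : MvPolynomial (Fin m) ℚ) : ev y (MvPolynomial.C r) =
      MvPolynomial.aeval (fun j => y (Sum.inr j)) r := by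
  simp [ev]

theorem aeval_comp {B B' : Type*} [CommRing B] [Algebra ℚ B] [CommRing B'] [Algebra ℚ B']
    (φ : B →+* B') {ι : Type*} (t : ι → B) (r : MvPolynomial ι ℚ) :
    φ (MvPolynomial.aeval t r) = MvPolynomial.aeval (fun j => φ (t j)) r := by
  have h : (RingHom.toRatAlgHom φ).comp (MvPolynomial.aeval t) =
      MvPolynomial.aeval (fun j => φ (t j)) := by
    apply MvPolynomial.algHom_ext
    intro i
    simp
  exact DFunLike.congr_fun h r

theorem ev_comp {B B' : Type*} [CommRing B] [Algebra ℚ B] [CommRing B'] [Algebra ℚ B']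
    (φ : B →+* B') (y : (Fin n ⊕ Fin n) ⊕ Fin m → B)
    (r : MvPolynomial (Fin n ⊕ Fin n) (MvPolynomial (Fin m) ℚ)) :
    φ (ev y r) = ev (fun i => φ (y i)) r := by
  have h : φ.comp (ev y) = ev (fun i => φ (y i)) := by
    apply MvPolynomial.ringHom_ext
    · intro c
      rw [RingHom.comp_apply, ev_C, ev_C, aeval_comp]
    · intro i
      rw [RingHom.comp_apply, ev_X, ev_X]
  exact DFunLike.congr_fun h r

theorem ev_inj : Function.Injective (ev (m := m) (n := n)
    (fun s => (MvPolynomial.X s : MvPolynomial ((Fin n ⊕ Fin n) ⊕ Fin m) ℚ))) := by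
  let g : MvPolynomial ((Fin n ⊕ Fin n) ⊕ Fin m) ℚ →ₐ[ℚ]
      MvPolynomial (Fin n ⊕ Fin n) (MvPolynomial (Fin m) ℚ) :=
    MvPolynomial.aeval (Sum.elim (fun i => MvPolynomial.X i)
      (fun j => MvPolynomial.C (MvPolynomial.X j)))
  have h : g.toRingHom.comp (ev (m := m) (n := n)
    (fun s => (MvPolynomial.X s : MvPolynomial ((Fin n ⊕ Fin n) ⊕ Fin m) ℚ))) = RingHom.id _ := by
    apply MvPolynomial.ringHom_ext
    · intro c
      rw [RingHom.comp_apply, ev_C]
      have h2 := aeval_comp g.toRingHom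
        (fun j => (MvPolynomial.X (Sum.inr j) : MvPolynomial ((Fin n ⊕ Fin n) ⊕ Fin m) ℚ)) c
      rw [h2]
      have h3 : ∀ j, g.toRingHom (MvPolynomial.X (Sum.inr j)) = MvPolynomial.C (MvPolynomial.X j) := by
        intro j
        simp [g]
      simp only [h3, RingHom.id_apply]
      have h4 := aeval_comp (MvPolynomial.C : MvPolynomial (Fin m) ℚ →+*
        MvPolynomial (Fin n ⊕ Fin n) (MvPolynomial (Fin m) ℚ)) (fun j => MvPolynomial.X j) c
      rw [← h4, MvPolynomial.aeval_X_left_apply]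
    · intro i
      rw [RingHom.comp_apply, ev_X]
      simp [g]
  intro a b hab
  have h1 := congrArg g.toRingHom hab
  have h2 := DFunLike.congr_fun h a
  have h3 := DFunLike.congr_fun h b
  rw [RingHom.comp_apply, RingHom.id_apply] at h2 h3
  rw [← h2, ← h3, h1]

theorem coeff_ev {B : Type*} [CommRing B] [Algebra ℚ B] (y : (Fin n ⊕ Fin n) ⊕ Fin m → B)
    (f : MvPolynomial (Fin n) (MvPolynomial (Fin m) ℚ)) (i : ℕ) :
    ev y ((line _ _ f).coeff i) = MvPolynomial.eval (fun j => y (Sum.inl (Sum.inr j)))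
      (MvPolynomial.homogeneousComponent i (trans (fun j => y (Sum.inl (Sum.inl j)))
        (f.map (MvPolynomial.aeval (fun j => y (Sum.inr j)) :
          MvPolynomial (Fin m) ℚ →ₐ[ℚ] B).toRingHom))) := by
  rw [← coeff_map, line_map, coeff_ray]
  have h1 : (ev y).comp MvPolynomial.C = (MvPolynomial.aeval (fun j => y (Sum.inr j)) :
          MvPolynomial (Fin m) ℚ →ₐ[ℚ] B).toRingHom := RingHom.ext fun r => ev_C y r
  rw [h1]
  simp only [ev_X]

end ev

/-- the local step: a local point of the function field gives an open set of lines which meet the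
fibre in rational points -/
theorem local_lines {m n : ℕ} (f : MvPolynomial (Fin n) (MvPolynomial (Fin m) ℚ))
    (hdeg : f.totalDegree = 3) {E : Type} [Field E] [Algebra ℚ E] (τ : MvPolynomial (Fin m) ℚ →ₐ[ℚ] E)
    (ξ v₀ z₁ : Fin n → E)
    (h0 : MvPolynomial.eval 0 (trans ξ (f.map τ.toRingHom)) = 0)
    (h1 : MvPolynomial.eval v₀ (MvPolynomial.homogeneousComponent 1 (trans ξ (f.map τ.toRingHom))) = 0)
    (hz1 : MvPolynomial.eval z₁
      (MvPolynomial.homogeneousComponent 1 (trans ξ (f.map τ.toRingHom))) ≠ 0)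
    (hz3 : MvPolynomial.eval z₁
      (MvPolynomial.homogeneousComponent 3 (trans ξ (f.map τ.toRingHom))) ≠ 0)
    (h23 : MvPolynomial.eval v₀
      (MvPolynomial.homogeneousComponent 2 (trans ξ (f.map τ.toRingHom))) ≠ 0 ∨
      MvPolynomial.eval v₀ (MvPolynomial.homogeneousComponent 3 (trans ξ (f.map τ.toRingHom))) ≠ 0)
    (D : MvPolynomial (Fin n ⊕ Fin n) (MvPolynomial (Fin m) ℚ)) (hD : D ≠ 0)
    {k : Type} [NontriviallyNormedField k] [CompleteSpace k] [CharZero k] [Algebra ℚ k]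
    (hk : LocPt E k) :
    ∃ y₁ : (Fin n ⊕ Fin n) ⊕ Fin m → k, ev y₁ D ≠ 0 ∧
      ∀ᶠ y in 𝓝 y₁, ((line _ _ f).map (ev y)).Splits := by
  classical
  -- the index of the nonvanishing component
  obtain ⟨i₀, hi₀, hi₀'⟩ : ∃ i₀ : ℕ, (i₀ = 2 ∨ i₀ = 3) ∧ MvPolynomial.eval v₀
      (MvPolynomial.homogeneousComponent i₀ (trans ξ (f.map τ.toRingHom))) ≠ 0 := by
    rcases h23 with h | h
    · exact ⟨2, Or.inl rfl, h⟩
    · exact ⟨3, Or.inr rfl, h⟩
  let yE : (Fin n → E) → (Fin n ⊕ Fin n) ⊕ Fin m → E := fun v =>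
    Sum.elim (Sum.elim ξ v) (fun j => τ (MvPolynomial.X j))
  have hτ : (MvPolynomial.aeval (fun j => τ (MvPolynomial.X j)) :
      MvPolynomial (Fin m) ℚ →ₐ[ℚ] E) = τ := by
    apply MvPolynomial.algHom_ext
    intro j
    rw [MvPolynomial.aeval_X]
  have hyE : ∀ (v : Fin n → E) (i : ℕ), ev (yE v) ((line _ _ f).coeff i) = MvPolynomial.eval v
      (MvPolynomial.homogeneousComponent i (trans ξ (f.map τ.toRingHom))) := by
    intro v i
    rw [coeff_ev]
    change MvPolynomial.eval v (MvPolynomial.homogeneousComponent i (trans ξ (f.map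
      (MvPolynomial.aeval (fun j => τ (MvPolynomial.X j)) :
      MvPolynomial (Fin m) ℚ →ₐ[ℚ] E).toRingHom))) = _
    rw [hτ]
  let s : Finset E := (Finset.univ.image ξ) ∪ (Finset.univ.image v₀) ∪ (Finset.univ.image z₁) ∪
    (Finset.univ.image fun j : Fin m => τ (MvPolynomial.X j)) ∪
    {(ev (yE z₁) ((line _ _ f).coeff 1))⁻¹, (ev (yE z₁) ((line _ _ f).coeff 3))⁻¹,
      (ev (yE v₀) ((line _ _ f).coeff i₀))⁻¹}
  obtain ⟨φ⟩ := hk s
  let B := Algebra.adjoin ℚ (s : Set E)
  have mξ : ∀ i, ξ i ∈ B := fun i => Algebra.subset_adjoin (by simp [s])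
  have mv : ∀ i, v₀ i ∈ B := fun i => Algebra.subset_adjoin (by simp [s])
  have mz : ∀ i, z₁ i ∈ B := fun i => Algebra.subset_adjoin (by simp [s])
  have mt : ∀ j, τ (MvPolynomial.X j) ∈ B := fun i => Algebra.subset_adjoin (by simp [s])
  have m1 : (ev (yE z₁) ((line _ _ f).coeff 1))⁻¹ ∈ B := Algebra.subset_adjoin (by simp [s])
  have m3 : (ev (yE z₁) ((line _ _ f).coeff 3))⁻¹ ∈ B := Algebra.subset_adjoin (by simp [s])
  have m2 : (ev (yE v₀) ((line _ _ f).coeff i₀))⁻¹ ∈ B := Algebra.subset_adjoin (by simp [s])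
  let yB : (Fin n → B) → (Fin n ⊕ Fin n) ⊕ Fin m → B := fun v =>
    Sum.elim (Sum.elim (fun i => ⟨ξ i, mξ i⟩) v) (fun j => ⟨τ (MvPolynomial.X j), mt j⟩)
  have hyB : ∀ (v : Fin n → B) (r : MvPolynomial (Fin n ⊕ Fin n) (MvPolynomial (Fin m) ℚ)),
      ((ev (yB v) r : B) : E) = ev (yE fun i => (v i : E)) r := by
    intro v r
    have h2 := ev_comp (B.val : B →+* E) (yB v) r
    have h3 : (fun i => (B.val : B →+* E) (yB v i)) = yE fun i => (v i : E) := by
      funext i
      rcases i with (i | i) | i <;> rfl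
    rw [h3] at h2
    exact h2
  let x₀ : Fin n → k := fun i => φ ⟨ξ i, mξ i⟩
  let t₀ : Fin m → k := fun j => φ ⟨τ (MvPolynomial.X j), mt j⟩
  let yk : (Fin n → k) → (Fin n ⊕ Fin n) ⊕ Fin m → k := fun v => Sum.elim (Sum.elim x₀ v) t₀
  let gk := trans x₀ (f.map (MvPolynomial.aeval t₀ : MvPolynomial (Fin m) ℚ →ₐ[ℚ] k).toRingHom)
  have hyk : ∀ (v : Fin n → k) (i : ℕ), ev (yk v) ((line _ _ f).coeff i) =
      MvPolynomial.eval v (MvPolynomial.homogeneousComponent i gk) := fun v i => coeff_ev (yk v) f i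
  have hφ : ∀ (v : Fin n → B) (r : MvPolynomial (Fin n ⊕ Fin n) (MvPolynomial (Fin m) ℚ)),
      φ (ev (yB v) r) = ev (yk fun i => φ (v i)) r := by
    intro v r
    have h2 := ev_comp (φ : B →+* k) (yB v) r
    have h3 : (fun i => (φ : B →+* k) (yB v i)) = yk fun i => φ (v i) := by
      funext i
      rcases i with (i | i) | i <;> rfl
    rw [h3] at h2
    exact h2
  let vB : Fin n → B := fun i => ⟨v₀ i, mv i⟩
  let zB : Fin n → B := fun i => ⟨z₁ i, mz i⟩
  have hzero : ∀ (v : Fin n → B) (i : ℕ), ev (yE fun i => (v i : E)) ((line _ _ f).coeff i) = 0 →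
      MvPolynomial.eval (fun i => φ (v i)) (MvPolynomial.homogeneousComponent i gk) = 0 := by
    intro v i h
    rw [← hyk, ← hφ]
    have h2 : ev (yB v) ((line _ _ f).coeff i) = 0 := Subtype.ext (by rw [hyB, h]; rfl)
    rw [h2, map_zero]
  have hne : ∀ (v : Fin n → B) (i : ℕ), ev (yE fun i => (v i : E)) ((line _ _ f).coeff i) ≠ 0 →
      (ev (yE fun i => (v i : E)) ((line _ _ f).coeff i))⁻¹ ∈ B →
      MvPolynomial.eval (fun i => φ (v i)) (MvPolynomial.homogeneousComponent i gk) ≠ 0 := by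
    intro v i h hm h3
    rw [← hyk, ← hφ] at h3
    have h2 : ev (yB v) ((line _ _ f).coeff i) * ⟨_, hm⟩ = 1 := by
      apply Subtype.ext
      change ((ev (yB v) ((line _ _ f).coeff i) : B) : E) * _ = 1
      rw [hyB, mul_inv_cancel₀ h]
    have h4 := congrArg φ h2
    rw [map_mul, h3, zero_mul, map_one] at h4
    exact zero_ne_one h4
  have hdk : gk.totalDegree ≤ 3 := by
    refine (totalDegree_trans_le _ _).trans ?_
    rw [← hdeg]
    exact Finset.sup_mono
      (MvPolynomial.support_map_subset (MvPolynomial.aeval t₀ : MvPolynomial (Fin m) ℚ →ₐ[ℚ] k).toRingHom f)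
  have h00 : ∀ v, MvPolynomial.eval v (MvPolynomial.homogeneousComponent 0 gk) = 0 := by
    have h2 := hzero vB 0 (by
      rw [hyE, MvPolynomial.homogeneousComponent_zero, MvPolynomial.eval_C]
      have h5 := DFunLike.congr_fun (MvPolynomial.eval_zero' (R := E) (σ := Fin n))
        (trans ξ (f.map τ.toRingHom))
      rw [MvPolynomial.constantCoeff_eq] at h5
      rw [← h5]
      exact h0)
    intro v
    rw [MvPolynomial.homogeneousComponent_zero, MvPolynomial.eval_C] at h2 ⊢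
    exact h2
  obtain ⟨v, hv3, a, b, ha0, hb0, hab, e0, ea, eb⟩ := exists_line gk hdk (fun i => φ (vB i))
    (fun i => φ (zB i)) h00 (hzero vB 1 (by rw [hyE]; exact h1))
    (hne zB 1 (by rw [hyE]; exact hz1) m1) (hne zB 3 (by rw [hyE]; exact hz3) m3)
    (by
      rcases hi₀ with rfl | rfl
      · exact Or.inl (hne vB 2 (by rw [hyE]; exact hi₀') m2)
      · exact Or.inr (hne vB 3 (by rw [hyE]; exact hi₀') m2))
  -- the polynomial with parameters
  let fl : MvPolynomial (Fin n ⊕ Fin n) (MvPolynomial (Fin m) ℚ) →+*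
      MvPolynomial ((Fin n ⊕ Fin n) ⊕ Fin m) k := ev fun i => MvPolynomial.X i
  have hfl : ∀ (y : (Fin n ⊕ Fin n) ⊕ Fin m → k) r, MvPolynomial.eval y (fl r) = ev y r := by
    intro y r
    have h2 := ev_comp (MvPolynomial.eval y) (fun i => (MvPolynomial.X i :
      MvPolynomial ((Fin n ⊕ Fin n) ⊕ Fin m) k)) r
    simp only [MvPolynomial.eval_X] at h2
    exact h2
  have hmapfl : ∀ (y : (Fin n ⊕ Fin n) ⊕ Fin m → k), ((line _ _ f).map fl).map
      (MvPolynomial.eval y) = (line _ _ f).map (ev y) := by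
    intro y
    rw [Polynomial.map_map]
    congr 1
    exact RingHom.ext (hfl y)
  have hray : (line _ _ f).map (ev (yk v)) = ray v gk := by
    ext i
    rw [coeff_map, hyk, coeff_ray]
  have hpers := three_roots_persist ((line _ _ f).map fl)
    (natDegree_map_le.trans ((natDegree_line_le f).trans hdeg.le)) (yk v)
    (by
      rw [coeff_map, hfl, hyk]
      exact hv3) ha0 hb0 hab (by rw [hmapfl, hray]; exact e0) (by rw [hmapfl, hray]; exact ea)
    (by rw [hmapfl, hray]; exact eb)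
  simp only [hmapfl] at hpers
  -- a nearby point where `D` does not vanish
  have hD' : ev (fun s => (MvPolynomial.X s : MvPolynomial ((Fin n ⊕ Fin n) ⊕ Fin m) ℚ)) D ≠ 0 :=
    fun h => hD (ev_inj (by rw [h, map_zero]))
  have hDy : ∀ y : (Fin n ⊕ Fin n) ⊕ Fin m → k, MvPolynomial.aeval y
      (ev (fun s => (MvPolynomial.X s : MvPolynomial ((Fin n ⊕ Fin n) ⊕ Fin m) ℚ)) D) = ev y D := by
    intro y
    have h2 := ev_comp (MvPolynomial.aeval y : MvPolynomial ((Fin n ⊕ Fin n) ⊕ Fin m) ℚ →ₐ[ℚ] k).toRingHom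
      (fun i => (MvPolynomial.X i : MvPolynomial ((Fin n ⊕ Fin n) ⊕ Fin m) ℚ)) D
    have h3 : (fun i => (MvPolynomial.aeval y : MvPolynomial ((Fin n ⊕ Fin n) ⊕ Fin m) ℚ →ₐ[ℚ] k).toRingHom
      (MvPolynomial.X i)) = y := by
      funext i
      exact MvPolynomial.aeval_X y i
    rw [h3] at h2
    exact h2
  have hvan := vanish_near (k := k) hD' (yk v)
  rw [Filter.not_eventually] at hvan
  obtain ⟨y₁, hy1, hy2⟩ := (hvan.and_eventually (eventually_eventually_nhds.2 hpers)).exists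
  refine ⟨y₁, ?_, hy2⟩
  rw [← hDy]
  exact hy1

end Run7.h805
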