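import Mathlib

/-!
# Galois groups of polynomials of degree at most three (helper805)
-/

set_option autoImplicit false

namespace Run7.h805

open Polynomial

theorem perm3_solvable : Group.IsSolvable (Equiv.Perm (Fin 3)) := by
  have : Group.IsSolvable (Equiv.Perm.sign : Equiv.Perm (Fin 3) →* ℤˣ).ker := by
    refine Group.isSolvable_of_comm ?_
    decide
  exact Group.isSolvable_of_ker_le_range (Equiv.Perm.sign : Equiv.Perm (Fin 3) →* ℤˣ).ker.subtype
    (Equiv.Perm.sign : Equiv.Perm (Fin 3) →* ℤˣ) (by rw [Subgroup.range_subtype])

theorem perm_solvable_of_card_le {X : Type*} [Fintype X] (h : Fintype.card X ≤ 3) :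
    Group.IsSolvable (Equiv.Perm X) := by
  classical
  obtain ⟨e⟩ : Nonempty (X ↪ Fin 3) := Function.Embedding.nonempty_of_card_le (by simpa using h)
  have := perm3_solvable
  exact Group.isSolvable_of_isSolvable_injective (Equiv.Perm.viaEmbeddingHom_injective e)

theorem gal_solvable_of_natDegree_le {k : Type*} [Field k] (p : k[X]) (h : p.natDegree ≤ 3) :
    Group.IsSolvable p.Gal := by
  classical
  have hfact : Fact ((p.map (algebraMap k p.SplittingField)).Splits) := ⟨SplittingField.splits p⟩
  have hcard : Fintype.card (p.rootSet p.SplittingField) ≤ 3 := by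
    refine le_trans ?_ h
    have e : Fintype.card (p.rootSet p.SplittingField) =
        (p.aroots p.SplittingField).toFinset.card := by
      rw [← Fintype.card_coe]
      exact Fintype.card_congr (Equiv.setCongr (rootSet_def p p.SplittingField))
    rw [e]
    refine (Multiset.toFinset_card_le _).trans ?_
    rw [aroots_def]
    exact (card_roots' _).trans natDegree_map_le
  have := perm_solvable_of_card_le hcard
  exact Group.isSolvable_of_isSolvable_injective (Gal.galActionHom_injective p p.SplittingField)

end Run7.h805
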