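import Mathlib
import Pool.Agent.Run7.h805.WA
import Pool.Agent.Run7.h805.Cub.Gal
import Pool.Agent.Run7.h805.Cub.Cop
import Pool.Agent.Run7.h805.Cub.Ev

/-!
# Totally `S`-adic cubic points on families of cubic hypersurfaces (helper805)
-/

set_option autoImplicit false

namespace Run7.h805

open Polynomial Topology Filter IntermediateField

/-- `E` is the function field of the hypersurface `f(t, x) = 0`, of degree three in `x`; every
finitely generated subalgebra of `E` has a homomorphism to a field of degree at most three over `ℚ`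
which is contained in `L` -/
theorem cubic_core {m n : ℕ} (f : MvPolynomial (Fin n) (MvPolynomial (Fin m) ℚ))
    (hf : Irreducible f) (hdeg : f.totalDegree = 3)
    (habs : ∀ (F : Type) [Field F] (φ : MvPolynomial (Fin m) ℚ →+* F), Function.Injective φ →
      Irreducible (f.map φ))
    {E : Type} [Field E] [Algebra ℚ E]
    {A : Type} [CommRing A] [IsDomain A] [Algebra ℚ A] [Algebra A E] [IsFractionRing A E]
    (π : MvPolynomial (Fin n) (MvPolynomial (Fin m) ℚ) →+* A) (hπ : Function.Surjective π)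
    (hker : ∀ h, π h = 0 ↔ f ∣ h)
    {Qb : Type} [Field Qb] [Algebra ℚ Qb] [IsAlgClosed Qb] [Algebra.IsAlgebraic ℚ Qb]
    (T : Finset Nat.Primes) (r : Bool) (L : IntermediateField ℚ Qb)
    (hL : ∀ x : Qb, (∀ p ∈ T, ((minpoly ℚ x).map (algebraMap ℚ ℚ_[(p : ℕ)])).Splits) →
      (r = true → ((minpoly ℚ x).map (algebraMap ℚ ℝ)).Splits) →
      Group.IsSolvable (minpoly ℚ x).Gal → x ∈ L)
    (hp : ∀ p ∈ T, LocPt E ℚ_[(p : ℕ)]) (hr : r = true → LocPt E ℝ) (s : Finset E) :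
    ∃ F : IntermediateField ℚ Qb, F ≤ L ∧ Module.finrank ℚ F ≤ 3 ∧
      Nonempty (Algebra.adjoin ℚ (s : Set E) →ₐ[ℚ] F) := by
  classical
  have hprime : Prime f := hf.prime
  have hcz : CharZero E := charZero_of_injective_algebraMap (algebraMap ℚ E).injective
  have hinjA : Function.Injective (algebraMap A E) := IsFractionRing.injective _ E
  let Θ : MvPolynomial (Fin n) (MvPolynomial (Fin m) ℚ) →+* E := (algebraMap A E).comp π
  have hΘ : ∀ h, Θ h = 0 ↔ f ∣ h := by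
    intro h
    rw [← hker]
    exact map_eq_zero_iff _ hinjA
  let τ : MvPolynomial (Fin m) ℚ →ₐ[ℚ] E := RingHom.toRatAlgHom (Θ.comp MvPolynomial.C)
  have hτ : ∀ a, τ a = Θ (MvPolynomial.C a) := fun a => rfl
  let ξ : Fin n → E := fun i => Θ (MvPolynomial.X i)
  have hev : ∀ h, MvPolynomial.eval ξ (h.map τ.toRingHom) = Θ h := by
    intro h
    have h1 : (MvPolynomial.eval ξ).comp (MvPolynomial.map τ.toRingHom) = Θ := by
      apply MvPolynomial.ringHom_ext
      · intro a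
        simp [hτ]
      · intro i
        simp [ξ]
    exact DFunLike.congr_fun h1 h
  have hτinj : Function.Injective τ.toRingHom := by
    rw [injective_iff_map_eq_zero]
    intro a ha
    by_contra ha0
    obtain ⟨q, hq⟩ := (hΘ _).1 ha
    have hC0 : (MvPolynomial.C a : MvPolynomial (Fin n) (MvPolynomial (Fin m) ℚ)) ≠ 0 := by
      rw [Ne, MvPolynomial.C_eq_zero]
      exact ha0
    have hq0 : q ≠ 0 := by
      rintro rfl
      rw [mul_zero] at hq
      exact hC0 hq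
    have h6 := MvPolynomial.totalDegree_mul_of_isDomain hf.ne_zero hq0
    rw [← hq, MvPolynomial.totalDegree_C, hdeg] at h6
    omega
  set g := trans ξ (f.map τ.toRingHom) with hg
  have hgirr : Irreducible g := by
    have h1 := habs E τ.toRingHom hτinj
    exact (MulEquiv.irreducible_iff (transEquiv ξ)).2 h1
  have hgdeg : g.totalDegree = 3 := by
    rw [hg, totalDegree_trans, ← hdeg]
    unfold MvPolynomial.totalDegree
    rw [MvPolynomial.support_map_of_injective f hτinj]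
  have hg0 : MvPolynomial.eval 0 g = 0 := by
    rw [hg, eval_trans]
    simp only [Pi.zero_apply, zero_add]
    rw [hev, (hΘ f).2 dvd_rfl]
  have hg1 : MvPolynomial.homogeneousComponent 1 g ≠ 0 :=
    hc_one_ne_zero τ.toRingHom f hdeg ξ fun h hh => (hΘ h).1 (by rw [← hev]; exact hh)
  obtain ⟨v₀, z₁, hv1, hz1, hz3, h23⟩ := gen_exists g hgirr hgdeg hg0 hg1
  -- the third coefficient of the restriction to the generic line
  have hF3 : (line _ _ f).coeff 3 ≠ 0 := by
    intro h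
    apply hz3
    have h1 := coeff_ev (m := m) (n := n) (Sum.elim (Sum.elim ξ z₁) (fun j => τ (MvPolynomial.X j))) f 3
    rw [h, map_zero] at h1
    have hτ' : (MvPolynomial.aeval (fun j => τ (MvPolynomial.X j)) :
        MvPolynomial (Fin m) ℚ →ₐ[ℚ] E) = τ := by
      apply MvPolynomial.algHom_ext
      intro j
      rw [MvPolynomial.aeval_X]
    have h2 : MvPolynomial.eval z₁ (MvPolynomial.homogeneousComponent 3 (trans ξ (f.map
      (MvPolynomial.aeval (fun j => τ (MvPolynomial.X j)) :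
      MvPolynomial (Fin m) ℚ →ₐ[ℚ] E).toRingHom))) = 0 := h1.symm
    rw [hτ'] at h2
    exact h2
  have hFdeg : (line _ _ f).natDegree ≤ 3 := (natDegree_line_le f).trans hdeg.le
  have hFdeg0 : (line _ _ f).natDegree ≠ 0 := by
    have := le_natDegree_of_ne_zero hF3
    omega
  -- denominators of the elements of `s`
  have hfrac : ∀ e : E, ∃ a b : MvPolynomial (Fin n) (MvPolynomial (Fin m) ℚ),
      Θ b ≠ 0 ∧ Θ a = Θ b * e := by
    intro e
    obtain ⟨x, y, hy, hxy⟩ := IsFractionRing.div_surjective (A := A) e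
    obtain ⟨a, rfl⟩ := hπ x
    obtain ⟨b, rfl⟩ := hπ y
    have hb : Θ b ≠ 0 := fun h => nonZeroDivisors.ne_zero hy ((map_eq_zero_iff _ hinjA).1 h)
    refine ⟨a, b, hb, ?_⟩
    have h1 : e = Θ a / Θ b := hxy.symm
    rw [h1, mul_div_cancel₀ _ hb]
  choose a b hb hab using hfrac
  let G : MvPolynomial (Fin n) (MvPolynomial (Fin m) ℚ) := ∏ e ∈ s, b e
  have hG : ¬ f ∣ G := by
    intro h
    obtain ⟨e, -, he⟩ := (Prime.dvd_finsetProd_iff hprime _).1 h
    exact hb e ((hΘ _).2 he)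
  obtain ⟨D, U, V, hD0, hD⟩ := exists_bezout (line_prime hprime) hFdeg0 (fun h => hG (line_dvd h))
  let D₀ := D * (line _ _ f).coeff 3
  have hD₀ : D₀ ≠ 0 := mul_ne_zero hD0 hF3
  -- local points
  have hloc : ∀ p : Nat.Primes, ∃ y₁ : (Fin n ⊕ Fin n) ⊕ Fin m → ℚ_[(p : ℕ)], p ∈ T →
      ∀ᶠ y in 𝓝 y₁, ((line _ _ f).map (ev y)).Splits := by
    intro p
    by_cases hpT : p ∈ T
    · obtain ⟨y₁, -, h⟩ := local_lines f hdeg τ ξ v₀ z₁ hg0 hv1 hz1 hz3 h23 D₀ hD₀ (hp p hpT)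
      exact ⟨y₁, fun _ => h⟩
    · exact ⟨0, fun h => absurd h hpT⟩
  choose yp hyp using hloc
  have hreal : ∃ y₁ : (Fin n ⊕ Fin n) ⊕ Fin m → ℝ, ev y₁ D₀ ≠ 0 ∧ (r = true →
      ∀ᶠ y in 𝓝 y₁, ((line _ _ f).map (ev y)).Splits) := by
    by_cases hrr : r = true
    · obtain ⟨y₁, h1, h2⟩ := local_lines f hdeg τ ξ v₀ z₁ hg0 hv1 hz1 hz3 h23 D₀ hD₀ (hr hrr)
      exact ⟨y₁, h1, fun _ => h2⟩
    · by_contra hcon
      push Not at hcon
      have h3 : ev (fun i => (MvPolynomial.X i : MvPolynomial ((Fin n ⊕ Fin n) ⊕ Fin m) ℚ)) D₀ ≠ 0 :=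
        fun h => hD₀ (ev_inj (by rw [h, map_zero]))
      refine vanish_near (k := ℝ) h3 0 (Eventually.of_forall fun y => ?_)
      have h2 := ev_comp (MvPolynomial.aeval y :
        MvPolynomial ((Fin n ⊕ Fin n) ⊕ Fin m) ℚ →ₐ[ℚ] ℝ).toRingHom
        (fun i => (MvPolynomial.X i : MvPolynomial ((Fin n ⊕ Fin n) ⊕ Fin m) ℚ)) D₀
      have h4 : (fun i => (MvPolynomial.aeval y :
          MvPolynomial ((Fin n ⊕ Fin n) ⊕ Fin m) ℚ →ₐ[ℚ] ℝ).toRingHom
          (MvPolynomial.X i)) = y := by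
        funext i
        exact MvPolynomial.aeval_X y i
      rw [h4] at h2
      refine h2.trans ?_
      by_contra h5
      exact hrr (hcon y h5).1
  obtain ⟨yr, hyr1, hyr2⟩ := hreal
  have hcontD : ∀ᶠ y in 𝓝 yr, ev y D₀ ≠ 0 := by
    have h1 : Continuous fun y : (Fin n ⊕ Fin n) ⊕ Fin m → ℝ => ev y D₀ := by
      have h2 : (fun y : (Fin n ⊕ Fin n) ⊕ Fin m → ℝ => ev y D₀) = fun y =>
          MvPolynomial.eval y (ev (fun i => (MvPolynomial.X i :
            MvPolynomial ((Fin n ⊕ Fin n) ⊕ Fin m) ℝ)) D₀) := by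
        funext y
        rw [ev_comp]
        simp only [MvPolynomial.eval_X]
      rw [h2]
      exact MvPolynomial.continuous_eval _
    exact h1.continuousAt.eventually_ne hyr1
  -- weak approximation
  obtain ⟨u, hu1, hu2⟩ := approx_vec T yp yr
    (fun p => {y | ((line _ _ f).map (ev y)).Splits}) (fun p hpT => hyp p hpT)
    {y | ev y D₀ ≠ 0 ∧ (r = true → ((line _ _ f).map (ev y)).Splits)}
    (by
      by_cases hrr : r = true
      · filter_upwards [hcontD, hyr2 hrr] with y h1 h2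
        exact ⟨h1, fun _ => h2⟩
      · filter_upwards [hcontD] with y h1
        exact ⟨h1, fun h => absurd h hrr⟩)
  let ρ : MvPolynomial (Fin n ⊕ Fin n) (MvPolynomial (Fin m) ℚ) →+* ℚ := ev u
  have hρ : ∀ {k : Type} [Field k] [Algebra ℚ k] (v : (Fin n ⊕ Fin n) ⊕ Fin m → k),
      (∀ i, v i = algebraMap ℚ k (u i)) → ev v = (algebraMap ℚ k).comp ρ := by
    intro k _ _ v hv
    have h0 : v = fun i => algebraMap ℚ k (u i) := funext hv
    rw [h0]
    exact RingHom.ext fun x => (ev_comp (algebraMap ℚ k) u x).symm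
  have hρD₀ : ρ D₀ ≠ 0 := by
    intro h
    apply hu2.1
    rw [hρ (k := ℝ) (fun i => (u i : ℝ)) (fun i => rfl), RingHom.comp_apply, h, map_zero]
  have hρD : ρ D ≠ 0 := fun h => hρD₀ (by rw [map_mul, h, zero_mul])
  have hρ3 : ρ ((line _ _ f).coeff 3) ≠ 0 := fun h => hρD₀ (by rw [map_mul, h, mul_zero])
  set P : ℚ[X] := (line _ _ f).map ρ with hP
  have hPdeg : P.natDegree ≤ 3 := natDegree_map_le.trans hFdeg
  have hP3 : P.coeff 3 ≠ 0 := by
    rw [hP, coeff_map]
    exact hρ3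
  have hP0 : P ≠ 0 := by
    intro h
    apply hP3
    rw [h, coeff_zero]
  obtain ⟨θ, hθ⟩ : ∃ θ : Qb, aeval θ P = 0 := by
    have h1 : (P.map (algebraMap ℚ Qb)).degree ≠ 0 := by
      rw [degree_map]
      intro h
      have h2 := natDegree_eq_zero_iff_degree_le_zero.2 h.le
      have h3 := le_natDegree_of_ne_zero hP3
      omega
    obtain ⟨x, hx⟩ := IsAlgClosed.exists_root _ h1
    exact ⟨x, by rw [IsRoot, eval_map_algebraMap] at hx; exact hx⟩
  have hint : IsIntegral ℚ θ := Algebra.IsIntegral.isIntegral θ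
  have hdvd : minpoly ℚ θ ∣ P := minpoly.dvd ℚ θ hθ
  have hmdeg : (minpoly ℚ θ).natDegree ≤ 3 := (natDegree_le_of_dvd hdvd hP0).trans hPdeg
  have hspl : ∀ {k : Type} [Field k] [Algebra ℚ k], (P.map (algebraMap ℚ k)).Splits →
      ((minpoly ℚ θ).map (algebraMap ℚ k)).Splits := by
    intro k _ _ h
    exact h.of_dvd ((Polynomial.map_ne_zero_iff (algebraMap ℚ k).injective).2 hP0)
      (Polynomial.map_dvd _ hdvd)
  have hθL : θ ∈ L := by
    refine hL θ ?_ ?_ (gal_solvable_of_natDegree_le _ hmdeg)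
    · intro p hpT
      apply hspl
      have h1 := hu1 p hpT
      simp only [Set.mem_ofPred_eq] at h1
      rw [hρ (k := ℚ_[(p : ℕ)]) (fun i => (u i : ℚ_[(p : ℕ)])) (fun i => rfl),
        ← Polynomial.map_map] at h1
      exact h1
    · intro hrr
      apply hspl
      have h1 := hu2.2 hrr
      rw [hρ (k := ℝ) (fun i => (u i : ℝ)) (fun i => rfl), ← Polynomial.map_map] at h1
      exact h1
  refine ⟨ℚ⟮θ⟯, ?_, ?_, ?_⟩
  · rw [adjoin_simple_le_iff]
    exact hθL
  · rw [adjoin.finrank hint]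
    exact hmdeg
  -- the homomorphism
  let θ' : ℚ⟮θ⟯ := AdjoinSimple.gen ℚ θ
  let Ψ : MvPolynomial (Fin n) (MvPolynomial (Fin m) ℚ) →+* ℚ⟮θ⟯ :=
    (eval₂RingHom ((algebraMap ℚ ℚ⟮θ⟯).comp ρ) θ').comp (line _ _).toRingHom
  have hΨ : ∀ h, Ψ h = eval₂ ((algebraMap ℚ ℚ⟮θ⟯).comp ρ) θ' (line _ _ h) := fun h => rfl
  have hΨf : Ψ f = 0 := by
    rw [hΨ, ← eval₂_map]
    have h1 : algebraMap ℚ⟮θ⟯ Qb (eval₂ (algebraMap ℚ ℚ⟮θ⟯) θ' P) = 0 := by
      rw [Polynomial.hom_eval₂, ← IsScalarTower.algebraMap_eq]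
      exact hθ
    exact (map_eq_zero _).1 h1
  have hΨG : Ψ G ≠ 0 := by
    intro h
    have h1 := congrArg (eval₂RingHom ((algebraMap ℚ ℚ⟮θ⟯).comp ρ) θ') hD
    simp only [map_add, map_mul, coe_eval₂RingHom, eval₂_C, RingHom.comp_apply] at h1
    rw [← hΨ, ← hΨ, hΨf, h, mul_zero, mul_zero, add_zero] at h1
    exact (_root_.map_ne_zero (algebraMap ℚ ℚ⟮θ⟯)).2 hρD h1.symm
  have hle : RingHom.ker π ≤ RingHom.ker Ψ := by
    intro h hh
    obtain ⟨q, rfl⟩ := (hker h).1 hh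
    rw [RingHom.mem_ker, map_mul, hΨf, zero_mul]
  let ψ : A →+* ℚ⟮θ⟯ := π.liftOfSurjective hπ ⟨Ψ, hle⟩
  have hψ : ∀ h, ψ (π h) = Ψ h := fun h =>
    RingHom.liftOfRightInverse_comp_apply π _ (Function.rightInverse_surjInv hπ) ⟨Ψ, hle⟩ h
  have tow : IsScalarTower ℚ A E := IsScalarTower.of_algebraMap_eq' (RingHom.ext_rat _ _)
  obtain ⟨φ, -⟩ := exists_hom (A := A) (E := E)
    (k := ℚ⟮θ⟯) hinjA (RingHom.toRatAlgHom ψ) (π G) (by
      change ψ (π G) ≠ 0
      rw [hψ]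
      exact hΨG) (s : Set E) (by
      intro e he
      refine ⟨π ((∏ e' ∈ s.erase e, b e') * a e), ?_⟩
      change Θ _ = Θ _ * e
      rw [map_mul, hab, ← mul_assoc, ← map_mul]
      congr 2
      exact Finset.prod_erase_mul s b he)
  exact ⟨φ⟩

end Run7.h805
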