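import Mathlib
import Pool.Agent.Run7.h805.Sch

/-!
# Points of a scheme from one finitely generated subalgebra of the function field (helper805)
-/

set_option autoImplicit false

namespace Run7.h805

open AlgebraicGeometry CategoryTheory CategoryTheory.Limits

/-- points from homomorphisms of one finitely generated subalgebra of the function field -/
theorem exists_finset_point {X : Scheme.{0}} (f : X ⟶ Spec (CommRingCat.of ℚ))
    [LocallyOfFiniteType f] [IsIntegral X] {E : Type} [Field E] [Algebra ℚ E]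
    (e : X.functionField →+* E) :
    ∃ s : Finset E, ∀ (k : Type) [Field k] [Algebra ℚ k],
      Nonempty (Algebra.adjoin ℚ (s : Set E) →ₐ[ℚ] k) →
      ∃ g : Spec (CommRingCat.of k) ⟶ X, g ≫ f = Spec.map (CommRingCat.ofHom (algebraMap ℚ k)) := by
  classical
  obtain ⟨x₀⟩ : Nonempty X := inferInstance
  obtain ⟨V, hV, hxV, -⟩ := X.isBasis_affineOpens.exists_subset_of_mem_open
    (show x₀ ∈ (⊤ : X.Opens) from trivial) (⊤ : X.Opens).isOpen
  obtain ⟨V, hV', rfl⟩ := hV
  have hne : Nonempty V := ⟨⟨x₀, hxV⟩⟩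
  let A := Γ(X, V)
  let _ : Algebra ℚ A := (ratHom f V).toAlgebra
  have hft : Algebra.FiniteType ℚ A := ratHom_finiteType f hV'
  let _ : Algebra A E := (e.comp (X.germToFunctionField V).hom).toAlgebra
  have tow : IsScalarTower ℚ A E := IsScalarTower.of_algebraMap_eq' (RingHom.ext_rat _ _)
  obtain ⟨s, hs⟩ := hft.out
  refine ⟨s.image (algebraMap A E), fun k _ _ ⟨φ⟩ => ?_⟩
  have hmem : ∀ a : A, algebraMap A E a ∈
      Algebra.adjoin ℚ ((s.image (algebraMap A E) : Finset E) : Set E) := by
    intro a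
    have h1 : (IsScalarTower.toAlgHom ℚ A E) a ∈
        (Algebra.adjoin ℚ (s : Set A)).map (IsScalarTower.toAlgHom ℚ A E) :=
      ⟨a, by rw [hs]; trivial, rfl⟩
    rw [AlgHom.map_adjoin] at h1
    rw [Finset.coe_image]
    exact h1
  let ψ : A →+* k := φ.toRingHom.comp ((algebraMap A E).codRestrict
    (Algebra.adjoin ℚ ((s.image (algebraMap A E) : Finset E) : Set E)) hmem)
  obtain ⟨g⟩ := exists_point hV' ψ
  exact ⟨g, hom_unique _ _⟩

end Run7.h805
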